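import Mathlib
import Pool.Agent.Q36.ZS.Fn

/-! A disproof in characteristic two: a smooth surface in a product of two planes whose first
projection has the least possible degree two, and over general lines rational curves. -/

namespace Pool.Agent.Results.MP_83f7cc_ag.CharacteristicTwo

open Q36.ZS MvPolynomial

theorem result (k : Type) [Field k] [IsAlgClosed k] [CharP k 2] :
    (∀ z ∈ Locus (surface k 2), LinearIndependent k ![grad (eqOne k 2) z, grad (eqTwo k 2) z]) ∧
    (∃ (K : Type) (_ : Field K) (_ : Algebra k K) (x y : Fin 3 → K),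
      IsFunctionField (Locus (surface k 2)) K x y ∧
      IsMapOfDegree k K 2 ![x 1 / x 0, x 2 / x 0] 2 ∧ LeastDegree k K 2 2) ∧
    (∃ Q : MvPolynomial (Fin 3) k, Q ≠ 0 ∧ ∀ l : Fin 3 → k, eval l Q ≠ 0 →
      ∃ x y : Fin 3 → RatFunc k,
        IsFunctionField (Locus (surface k 2 ∪ {lineEq k l})) (RatFunc k) x y ∧
        LeastDegree k (RatFunc k) 1 1) := by
  have : Fact (Nat.Prime 2) := ⟨Nat.prime_two⟩
  exact ⟨smooth k 2, main_two k, lines 2⟩

end Pool.Agent.Results.MP_83f7cc_ag.CharacteristicTwo
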